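import Pool.Agent.H9R2.TF.Fin

set_option autoImplicit false
open MeasureTheory Set Filter Topology Metric
open scoped RealInnerProductSpace BigOperators ENNReal
open Pool.Agent.Helper557 Pool.Agent.Helper557.TFP
open Pool.Agent.H9R2.TF

/-!
Thomas-Fermi molecules: existence of solutions of the Thomas-Fermi equation with positive chemical
potential, their minimality, and small masses (using the library `H9R2.TF`).
-/

namespace Pool.Agent.X96.TD

/-- the tangent inequality for `be` -/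
theorem be_tan (u v : ℝ) : be u + 3/2 * √(max u 0) * (v - u) ≤ be v := by
  rw [be_sqrt, be_sqrt]
  have hp0 : 0 ≤ √(max u 0) := Real.sqrt_nonneg _
  have hq0 : 0 ≤ √(max v 0) := Real.sqrt_nonneg _
  have hp2 : √(max u 0) ^ 2 = max u 0 := Real.sq_sqrt (le_max_right _ _)
  have hq2 : √(max v 0) ^ 2 = max v 0 := Real.sq_sqrt (le_max_right _ _)
  have h1 : √(max u 0) * (v - u) ≤ √(max u 0) * (√(max v 0) ^ 2 - √(max u 0) ^ 2) := by
    rw [hp2, hq2]
    rcases le_or_gt u 0 with h | h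
    · rw [max_eq_right h]; simp
    · rw [max_eq_left h.le]
      refine mul_le_mul_of_nonneg_left ?_ (Real.sqrt_nonneg _)
      linarith [le_max_left v 0]
  set p := √(max u 0)
  set q := √(max v 0)
  have h2 : 0 ≤ (q - p) ^ 2 * (2 * q + p) := by positivity
  nlinarith

theorem rad_int {s r : ℝ} (hs : s < 3) :
    IntegrableOn (fun x : E3 => ‖x‖ ^ (-s)) (ball 0 r) := by
  rw [integrableOn_fun_norm_addHaar (μ := (volume : Measure E3)) (f := fun y : ℝ => y ^ (-s))]
  have hd : Module.finrank ℝ E3 - 1 = 2 := by simp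
  rw [hd]
  rcases le_or_gt r 0 with hr | hr
  · rw [Ioo_eq_empty (by linarith)]
    exact integrableOn_empty
  have h1 : IntervalIntegrable (fun y : ℝ => y ^ (2 - s)) volume 0 r :=
    intervalIntegral.intervalIntegrable_rpow' (by linarith)
  rw [intervalIntegrable_iff_integrableOn_Ioo_of_le hr.le] at h1
  refine h1.congr_fun (fun y hy => ?_) measurableSet_Ioo
  simp only [smul_eq_mul]
  rw [← Real.rpow_natCast y 2, ← Real.rpow_add hy.1]
  congr 1

theorem nice_one (c Φ : ℝ) (hc : 0 ≤ c) (hΦ : 0 < Φ) (p : E3) :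
    Nice (fun x => be (c / ‖x - p‖ - Φ)) := by
  have hm : Measurable (fun x : E3 => be (c / ‖x - p‖ - Φ)) := by
    refine be_meas.comp ?_
    exact (measurable_const.div (measurable_id.sub_const p).norm).sub_const Φ
  -- the bound
  have hb : ∀ (e : ℝ), 0 < e → ∀ x : E3, be (c / ‖x - p‖ - Φ) ^ e ≤
      (ball (0:E3) (c / Φ)).indicator (fun x => c ^ (3/2 * e) * ‖x‖ ^ (-(3/2 * e))) (x - p) := by
    intro e he x
    by_cases hx : x - p ∈ ball (0:E3) (c / Φ)
    · rw [indicator_of_mem hx]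
      have h1 : be (c / ‖x - p‖ - Φ) ≤ (c / ‖x - p‖) ^ (3/2 : ℝ) := by
        have h2 : 0 ≤ c / ‖x - p‖ := by positivity
        unfold be
        refine Real.rpow_le_rpow (le_max_right _ _) (max_le (by linarith) h2) (by norm_num)
      refine (Real.rpow_le_rpow (be_nonneg _) h1 he.le).trans (le_of_eq ?_)
      rw [← Real.rpow_mul (by positivity), Real.div_rpow hc (norm_nonneg _),
        Real.rpow_neg (norm_nonneg _), div_eq_mul_inv]
    · rw [indicator_of_notMem hx]
      have h0 : be (c / ‖x - p‖ - Φ) = 0 := by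
        refine be_zero_of ?_
        rw [mem_ball_zero_iff, not_lt, div_le_iff₀ hΦ] at hx
        rcases eq_or_lt_of_le (norm_nonneg (x - p)) with h | h
        · rw [← h]; simp; exact hΦ.le
        · have : c / ‖x - p‖ ≤ Φ := by
            rw [div_le_iff₀ h]; linarith
          linarith
      rw [h0, Real.zero_rpow he.ne']
  have hi : ∀ (e : ℝ), 0 < e → e < 2 →
      Integrable (fun x : E3 => be (c / ‖x - p‖ - Φ) ^ e) := by
    intro e he he2
    have h1 : Integrable ((ball (0:E3) (c / Φ)).indicator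
        (fun x => c ^ (3/2 * e) * ‖x‖ ^ (-(3/2 * e)))) := by
      rw [integrable_indicator_iff measurableSet_ball]
      exact (rad_int (by linarith)).const_mul _
    have h2 := h1.comp_sub_right p
    refine h2.mono' (hm.pow_const _).aestronglyMeasurable (Eventually.of_forall fun x => ?_)
    rw [Real.norm_of_nonneg (Real.rpow_nonneg (be_nonneg _) _)]
    exact hb e he x
  refine ⟨hm, ?_, ?_⟩
  · simpa using hi 1 one_pos (by norm_num)
  · refine (hi (5/3) (by norm_num) (by norm_num)).congr (Eventually.of_forall fun x => ?_)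
    simp only
    rw [abs_of_nonneg (be_nonneg _)]

variable {z : Fin 2 → ℝ} {R : Fin 2 → E3}

theorem nice_beV (hz : ∀ j, 0 ≤ z j) {Φ : ℝ} (hΦ : 0 < Φ) :
    Nice (fun x => be (VV z R x - Φ)) := by
  have n0 := nice_one (2 * z 0) Φ (by linarith [hz 0]) hΦ (R 0)
  have n1 := nice_one (2 * z 1) Φ (by linarith [hz 1]) hΦ (R 1)
  refine nice_of_le (nice_add n0 n1) (be_meas.comp ((VV_meas z R).sub_const _)) (fun x => ?_)
  have p0 := be_nonneg (2 * z 0 / ‖x - R 0‖ - Φ)
  have p1 := be_nonneg (2 * z 1 / ‖x - R 1‖ - Φ)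
  rw [abs_of_nonneg (be_nonneg _), abs_of_nonneg (by linarith)]
  have hV : VV z R x = z 0 / ‖x - R 0‖ + z 1 / ‖x - R 1‖ := by
    unfold VV
    rw [Fin.sum_univ_two]
  have e0 : 2 * z 0 / ‖x - R 0‖ = z 0 / ‖x - R 0‖ + z 0 / ‖x - R 0‖ := by ring
  have e1 : 2 * z 1 / ‖x - R 1‖ = z 1 / ‖x - R 1‖ + z 1 / ‖x - R 1‖ := by ring
  rcases le_total (z 0 / ‖x - R 0‖) (z 1 / ‖x - R 1‖) with h | h
  · have := be_mono (show VV z R x - Φ ≤ 2 * z 1 / ‖x - R 1‖ - Φ by rw [hV, e1]; linarith)
    linarith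
  · have := be_mono (show VV z R x - Φ ≤ 2 * z 0 / ‖x - R 0‖ - Φ by rw [hV, e0]; linarith)
    linarith

/-- existence of a solution with a positive chemical potential -/
theorem exists_ELs (hz : ∀ j, 0 ≤ z j) {Φ : ℝ} (hΦ : 0 < Φ) : ∃ ρ, ELs z R Φ ρ := by
  have n := nice_beV (R := R) hz hΦ
  obtain ⟨τ, hτ, he⟩ := exists_EL (h := fun x => VV z R x - Φ) (kop_full n) n
    (fun x => be_nonneg _) ((VV_meas z R).sub_const _)
    (((vint z R n).sub (n.2.1.const_mul Φ)).congr (Eventually.of_forall (fun x => by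
      simp only [Pi.sub_apply]; ring)))
  have nτ := hτ.nice n
  refine ⟨τ, nτ, fun x => ?_⟩
  have h1 := he x
  have h2 : be (VV z R x - Φ - pot τ x) ≤ be (VV z R x - Φ) := be_mono (by
    have := pot_nonneg (fun y => (hτ.2 y).1) x
    linarith)
  rw [min_eq_right h2] at h1
  rw [h1]
  congr 1
  ring

/-- solutions of small mass -/
theorem exists_small (hz : ∀ j, 0 ≤ z j) {m : ℝ} (hm : 0 < m) :
    ∃ Φ ρ, 0 < Φ ∧ ELs z R Φ ρ ∧ ∫ x, ρ x < m := by
  obtain ⟨ρ₂, h₂⟩ := exists_ELs (R := R) hz one_pos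
  have H : ∀ n : ℕ, ∃ τ, ELs z R (1 + n) τ ∧ ∀ x, τ x ≤ ρ₂ x := fun n =>
    exists_rho h₂ (by have : (0:ℝ) ≤ n := Nat.cast_nonneg n; linarith)
  choose τ hτ hle using H
  have hev : ∀ x, ∀ᶠ n : ℕ in atTop, τ n x = 0 := by
    intro x
    obtain ⟨N, hN⟩ := exists_nat_gt (VV z R x)
    filter_upwards [eventually_ge_atTop N] with n hn
    rw [(hτ n).eq]
    apply be_zero_of
    have h1 := pot_nonneg (hτ n).nonneg x
    have h2 : (N:ℝ) ≤ n := by exact_mod_cast hn
    linarith
  have t2 : Tendsto (fun n => ∫ x, τ n x) atTop (𝓝 0) := by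
    have := tendsto_integral_of_dominated_convergence (F := fun n x => τ n x)
      (f := fun _ : E3 => (0:ℝ)) (fun x => ρ₂ x)
      (fun n => (hτ n).nice.1.aestronglyMeasurable) h₂.nice.2.1
      (fun n => Eventually.of_forall (fun x => by
        rw [Real.norm_of_nonneg ((hτ n).nonneg x)]
        exact hle n x))
      (Eventually.of_forall (fun x => by
        refine tendsto_const_nhds.congr' ?_
        filter_upwards [hev x] with n hn
        rw [hn]))
    rwa [integral_zero] at this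
  obtain ⟨n, hn⟩ := (t2.eventually (gt_mem_nhds hm)).exists
  exact ⟨1 + n, τ n, by positivity, hτ n, hn⟩

/-- solutions of the Thomas-Fermi equation are minimisers -/
theorem ELs_min {Φ : ℝ} {ρ : E3 → ℝ} (h : ELs z R Φ ρ) {σ : E3 → ℝ} (nσ : Nice σ)
    (h0 : ∀ x, 0 ≤ σ x) (hm : ∫ x, σ x = ∫ x, ρ x) : EF z R ρ ≤ EF z R σ := by
  have nρ := h.nice
  have nd := nice_sub' nσ nρ
  have k := kop_full nρ
  have q := KOp.exp k nρ nd 1
  have e1 : (fun y => ρ y + 1 * (σ y - ρ y)) = σ := by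
    funext y; ring
  have q' : ∫ x, σ x * pot σ x = (∫ x, ρ x * pot ρ x) + 2 * (∫ x, (σ x - ρ x) * pot ρ x)
      + ∫ x, (σ x - ρ x) * pot (fun x => σ x - ρ x) x := by
    have : (∫ x, (ρ x + 1 * (σ x - ρ x)) * pot (fun y => ρ y + 1 * (σ y - ρ y)) x)
        = ∫ x, σ x * pot σ x := by
      rw [e1]
      congr 1
      funext x
      ring
    rw [this] at q
    rw [q]
    ring
  have hpos := pot_pos nd
  have i53σ : Integrable (fun x => σ x ^ (5/3 : ℝ)) := by
    refine nσ.2.2.congr (Eventually.of_forall fun x => ?_)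
    simp only [abs_of_nonneg (h0 x)]
  have i53ρ : Integrable (fun x => ρ x ^ (5/3 : ℝ)) := by
    refine nρ.2.2.congr (Eventually.of_forall fun x => ?_)
    simp only [abs_of_nonneg (h.nonneg x)]
  have iV := vint z R nd
  have iP : Integrable (fun x => (σ x - ρ x) * pot ρ x) := TF_E1_int _ _ nd.2.1 nρ
  -- pointwise
  have hpt : ∀ x, (VV z R x * (σ x - ρ x) - (σ x - ρ x) * pot ρ x) - Φ * (σ x - ρ x)
      ≤ 3/5 * σ x ^ (5/3 : ℝ) - 3/5 * ρ x ^ (5/3 : ℝ) := by
    intro x
    have h1 := sc2 (h0 x) (h.nonneg x)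
    have h2 : ρ x ^ (2/3 : ℝ) = max (VV z R x - pot ρ x - Φ) 0 := by
      conv_lhs => rw [h.eq x]
      exact be_pow _
    have h3 : ρ x ^ (2/3 : ℝ) * (ρ x - σ x) ≤ (VV z R x - pot ρ x - Φ) * (ρ x - σ x) := by
      rw [h2]
      rcases le_or_gt (VV z R x - pot ρ x - Φ) 0 with hu | hu
      · have hρ0 : ρ x = 0 := by rw [h.eq x]; exact be_zero_of hu
        rw [max_eq_right hu, hρ0]
        nlinarith [h0 x]
      · rw [max_eq_left hu.le]
    have h4 := h1
    nlinarith
  have hI : (∫ x, ((VV z R x * (σ x - ρ x) - (σ x - ρ x) * pot ρ x) - Φ * (σ x - ρ x)))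
      ≤ ∫ x, (3/5 * σ x ^ (5/3 : ℝ) - 3/5 * ρ x ^ (5/3 : ℝ)) :=
    integral_mono ((iV.sub iP).sub (nd.2.1.const_mul Φ))
      ((i53σ.const_mul _).sub (i53ρ.const_mul _)) hpt
  have iVP : Integrable (fun x => VV z R x * (σ x - ρ x) - (σ x - ρ x) * pot ρ x) := iV.sub iP
  rw [integral_sub iVP (nd.2.1.const_mul Φ), integral_sub iV iP, integral_const_mul,
    integral_sub nσ.2.1 nρ.2.1, hm, sub_self, mul_zero, sub_zero,
    integral_sub (i53σ.const_mul _) (i53ρ.const_mul _), integral_const_mul,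
    integral_const_mul] at hI
  have hV : (∫ x, VV z R x * (σ x - ρ x)) = (∫ x, VV z R x * σ x) - ∫ x, VV z R x * ρ x := by
    rw [← integral_sub (vint z R nσ) (vint z R nρ)]
    congr 1
    funext x
    ring
  rw [hV] at hI
  unfold EF
  rw [q']
  linarith

end Pool.Agent.X96.TD
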