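import Pool.Agent.X96.TD.A

set_option autoImplicit false
open MeasureTheory Set Filter Topology Metric
open scoped RealInnerProductSpace BigOperators ENNReal
open Pool.Agent.Helper557 Pool.Agent.Helper557.TFP
open Pool.Agent.H9R2.TF

/-!
The reflected density difference of a Thomas-Fermi diatomic molecule is not monotone in the electron
number.
-/

namespace Pool.Agent.X96.TD

variable {z : Fin 2 → ℝ} {R : Fin 2 → E3}

theorem VV2 (x : E3) : VV z R x = z 0 / ‖x - R 0‖ + z 1 / ‖x - R 1‖ := by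
  unfold VV
  rw [Fin.sum_univ_two]

/-- the singularity at an atom -/
theorem tend_inv {c : ℝ} (hc : 0 < c) (p : E3) :
    Tendsto (fun y : E3 => c / ‖y - p‖) (𝓝[≠] p) atTop := by
  have h1 : Tendsto (fun y : E3 => ‖y - p‖) (𝓝[≠] p) (𝓝[>] 0) := by
    rw [tendsto_nhdsWithin_iff]
    constructor
    · have : Tendsto (fun y : E3 => ‖y - p‖) (𝓝 p) (𝓝 ‖p - p‖) :=
        (continuous_id.sub continuous_const).norm.continuousAt
      rw [sub_self, norm_zero] at this
      exact this.mono_left nhdsWithin_le_nhds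
    · filter_upwards [self_mem_nhdsWithin] with y hy
      exact norm_pos_iff.mpr (sub_ne_zero.mpr hy)
  have h2 := (tendsto_inv_nhdsGT_zero (𝕜 := ℝ)).comp h1
  refine (h2.const_mul_atTop hc).congr fun y => ?_
  simp [div_eq_mul_inv]

theorem sg_ne0 (h1 : 0 < (R 1) 0) (h0 : (R 0) 0 = 0) : ∀ j, sg (R 1) ≠ R j := by
  intro j h
  have h2 : (sg (R 1)) 0 = (R j) 0 := by rw [h]
  rw [sg_zero] at h2
  fin_cases j
  · simp at h2; linarith
  · simp at h2; linarith

/-- near the nucleus off the plane the difference of the densities is large -/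
theorem near1 (hz : ∀ j, 0 < z j) (h0 : (R 0) 0 = 0) (h1 : 0 < (R 1) 0) {Φ Φ' : ℝ}
    (hΦ : 0 ≤ Φ) {ρ ρ' : E3 → ℝ} (h : ELs z R Φ ρ) (h' : ELs z R Φ' ρ')
    (hs : ∀ x, 1 ≤ Φ' - Φ - pot ρ x + pot ρ' x) :
    ∃ r, 0 < r ∧ ∀ y, y ≠ R 1 → ‖y - R 1‖ < r →
      1 ≤ (ρ y - ρ' y) - (ρ (sg y) - ρ' (sg y)) := by
  obtain ⟨B, hB0, hB⟩ := pot_bdd h.nice
  -- the reflected density is bounded near the nucleus
  have hc : ContinuousAt (fun y => be (VV z R (sg y))) (R 1) := by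
    refine be_cont.continuousAt.comp ?_
    refine ContinuousAt.comp (f := sg) (g := VV z R) ?_ sg_cont.continuousAt
    exact VV_cont z R (sg (R 1)) (fun j _ => sg_ne0 h1 h0 j)
  have hc2 : ∀ᶠ y in 𝓝 (R 1), be (VV z R (sg y)) < be (VV z R (sg (R 1))) + 1 :=
    hc.eventually (gt_mem_nhds (by linarith))
  set C := be (VV z R (sg (R 1))) + 1 with hC
  have hC0 : 0 < C := by
    have := be_nonneg (VV z R (sg (R 1)))
    linarith
  have ht := (tend_inv (hz 1) (R 1)).eventually_ge_atTop (B + Φ + 1 + (C + 1) ^ 2)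
  have hc3 := (hc2.filter_mono nhdsWithin_le_nhds).and ht
  rw [eventually_nhdsWithin_iff, Metric.eventually_nhds_iff] at hc3
  obtain ⟨r, r0, hr⟩ := hc3
  refine ⟨r, r0, fun y hy hyr => ?_⟩
  obtain ⟨k1, k2⟩ := hr (by rwa [dist_eq_norm]) hy
  have hρ := h.eq y
  have hρ' := h'.eq y
  have hV : z 1 / ‖y - R 1‖ ≤ VV z R y := by
    rw [VV2]
    have : 0 ≤ z 0 / ‖y - R 0‖ := div_nonneg (hz 0).le (norm_nonneg _)
    linarith
  have hp := (abs_le.mp (hB y)).2
  have hs1 := hs y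
  have hlow : (C + 1) ≤ ρ y - ρ' y := by
    have k3 := be_tan (VV z R y - pot ρ y - Φ - 1) (VV z R y - pot ρ y - Φ)
    have k4 : ρ' y ≤ be (VV z R y - pot ρ y - Φ - 1) := by
      rw [hρ']
      exact be_mono (by linarith)
    have k5 : (C + 1) ^ 2 ≤ VV z R y - pot ρ y - Φ - 1 := by linarith
    have k6 : C + 1 ≤ √(max (VV z R y - pot ρ y - Φ - 1) 0) := by
      rw [max_eq_left (le_trans (sq_nonneg _) k5)]
      exact Real.le_sqrt_of_sq_le k5
    rw [hρ]
    have k7 : (VV z R y - pot ρ y - Φ) - (VV z R y - pot ρ y - Φ - 1) = 1 := by ring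
    rw [k7, mul_one] at k3
    linarith
  have hup : ρ (sg y) - ρ' (sg y) ≤ C := by
    have k3 := h'.nonneg (sg y)
    have k4 := h.le_V hΦ (sg y)
    linarith
  linarith

/-- twice the potential of an odd density -/
theorem pot_odd {v : E3 → ℝ} (nv : Nice v) (ho : ∀ y, v (sg y) = - v y) (x : E3) :
    2 * pot v x = ∫ y, v y * (1 / ‖x - y‖ - 1 / ‖x - sg y‖) := by
  obtain ⟨B, hB⟩ := nice_bound v nv
  have i1 := (hB x).1
  have i2 := (hB (sg x)).1
  have h1 : pot v (sg x) = - pot v x := by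
    rw [← pot_sg, ← pot_neg]
    congr 1
    funext y
    exact ho y
  have h2 : 2 * pot v x = pot v x - pot v (sg x) := by rw [h1]; ring
  rw [h2]
  unfold pot
  rw [← integral_sub i1 i2]
  congr 1
  funext y
  rw [sg_dist']
  ring

theorem norm_sg_sub (x y : E3) : ‖x - sg y‖ ^ 2 - ‖x - y‖ ^ 2 = 4 * x 0 * y 0 := by
  rw [EuclideanSpace.norm_sq_eq, EuclideanSpace.norm_sq_eq, Fin.sum_univ_three,
    Fin.sum_univ_three]
  simp only [PiLp.sub_apply, sg_apply, Real.norm_eq_abs, sq_abs]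
  simp
  ring

theorem ker_nonneg {x y : E3} (hx : 0 < x 0) (hy : 0 < y 0) (hne : x ≠ y) :
    1 / ‖x - sg y‖ ≤ 1 / ‖x - y‖ := by
  have h1 := norm_sg_sub x y
  have h2 : 0 < ‖x - y‖ := norm_pos_iff.mpr (sub_ne_zero.mpr hne)
  refine one_div_le_one_div_of_le h2 ?_
  have h3 : ‖x - y‖ ^ 2 ≤ ‖x - sg y‖ ^ 2 := by nlinarith [mul_pos hx hy]
  exact le_of_sq_le_sq h3 (norm_nonneg _)

theorem ker_ge {x y : E3} {M : ℝ} (hx : 0 < x 0) (hy : 0 < y 0) (hne : x ≠ y) (hM : 0 < M)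
    (h1 : ‖x - y‖ ≤ M) (h2 : ‖x - sg y‖ ≤ M) :
    2 * (x 0 * y 0) / M ^ 3 ≤ 1 / ‖x - y‖ - 1 / ‖x - sg y‖ := by
  have h3 := norm_sg_sub x y
  have a0 : 0 < ‖x - y‖ := norm_pos_iff.mpr (sub_ne_zero.mpr hne)
  have hxy := mul_pos hx hy
  have b0 : 0 < ‖x - sg y‖ := by
    have : 0 < ‖x - sg y‖ ^ 2 := by nlinarith [sq_nonneg ‖x - y‖]
    refine lt_of_le_of_ne (norm_nonneg _) (fun h => ?_)
    rw [← h] at this
    norm_num at this
  set a := ‖x - y‖
  set b := ‖x - sg y‖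
  have h4 : 1 / a - 1 / b = 4 * (x 0 * y 0) / (a * b * (a + b)) := by
    have h5 : (b - a) * (b + a) = 4 * (x 0 * y 0) := by nlinarith
    rw [← h5]
    field_simp
    ring
  rw [h4, div_le_div_iff₀ (by positivity) (by positivity)]
  have h6 : a * b * (a + b) ≤ 2 * M ^ 3 := by
    have h7 : a * b ≤ M * M := mul_le_mul h1 h2 b0.le hM.le
    have h8 : a * b * (a + b) ≤ M * M * (M + M) :=
      mul_le_mul h7 (by linarith) (by positivity) (by positivity)
    nlinarith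
  nlinarith

end Pool.Agent.X96.TD
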