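import Pool.Agent.X96.TD.B

set_option autoImplicit false
open MeasureTheory Set Filter Topology Metric
open scoped RealInnerProductSpace BigOperators ENNReal
open Pool.Agent.Helper557 Pool.Agent.Helper557.TFP
open Pool.Agent.H9R2.TF

/-!
The reflected density difference of a Thomas-Fermi diatomic molecule is not monotone in the electron
number: the contradiction near the nucleus on the plane.
-/

namespace Pool.Agent.X96.TD

variable {z : Fin 2 → ℝ} {R : Fin 2 → E3}

/-- lower bound of the field of an odd density with the sign of the half-space -/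
theorem field_ge (h1 : 0 < (R 1) 0) {w : E3 → ℝ} (nw : Nice w) (ho : ∀ y, w (sg y) = - w y)
    (hw : ∀ y, 0 < y 0 → y ≠ R 1 → 0 ≤ w y)
    {r : ℝ} (r0 : 0 < r) (hr : ∀ y, y ≠ R 1 → ‖y - R 1‖ < r → 1 ≤ w y) (h0 : (R 0) 0 = 0) :
    ∃ c, 0 < c ∧ ∀ t, 0 < t → t ≤ 1 → c * t ≤ pot w (R 0 + t • e0) := by
  obtain ⟨r', hr'0, hr'1, hr'2⟩ : ∃ r', 0 < r' ∧ r' ≤ r ∧ r' ≤ (R 1) 0 / 2 :=
    ⟨min r ((R 1) 0 / 2), by positivity, min_le_left _ _, min_le_right _ _⟩
  set M := ‖R 0 - R 1‖ + r' + 1 with hM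
  have hM0 : 0 < M := by positivity
  have hvol : 0 < volume.real (ball (R 1) r') :=
    ENNReal.toReal_pos (measure_ball_pos volume _ hr'0).ne' measure_ball_lt_top.ne
  refine ⟨((R 1) 0 / M ^ 3) / 2 * volume.real (ball (R 1) r'), by positivity, fun t t0 t1 => ?_⟩
  set x := R 0 + t • e0 with hx
  have hx0 : x 0 = t := by
    simp [hx, h0, e0]
  have hsx : sg x = R 0 + (-t) • e0 := by
    ext i
    rw [sg_apply]
    fin_cases i
    · simp [hx, e0, h0]
    · simp [hx, e0]
    · simp [hx, e0]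
  have hxn : ‖x - R 0‖ = t := by
    rw [hx, add_sub_cancel_left, norm_smul, e0_norm, mul_one, Real.norm_of_nonneg t0.le]
  have hsn : ‖sg x - R 0‖ = t := by
    rw [hsx, add_sub_cancel_left, norm_smul, e0_norm, mul_one, norm_neg, Real.norm_of_nonneg t0.le]
  have h2 := pot_odd nw ho x
  obtain ⟨B, hB⟩ := nice_bound w nw
  have i1 := (hB x).1
  have i2 := (hB (sg x)).1
  have iI : Integrable (fun y => w y * (1 / ‖x - y‖ - 1 / ‖x - sg y‖)) := by
    refine (i1.sub i2).congr (Eventually.of_forall fun y => ?_)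
    simp only [Pi.sub_apply]
    rw [sg_dist']
    ring
  have iJ : Integrable ((ball (R 1) r').indicator fun _ => (R 1) 0 / M ^ 3 * t) := by
    rw [integrable_indicator_iff measurableSet_ball]
    exact integrableOn_const measure_ball_lt_top.ne
  -- pointwise bound, almost everywhere
  have hae : (ball (R 1) r').indicator (fun _ => (R 1) 0 / M ^ 3 * t) ≤ᵐ[volume]
      fun y => w y * (1 / ‖x - y‖ - 1 / ‖x - sg y‖) := by
    have a1 : ∀ᵐ y : E3, y ≠ R 1 := (Set.countable_singleton (R 1)).ae_notMem volume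
    have a2 : ∀ᵐ y : E3, y ≠ sg (R 1) := (Set.countable_singleton (sg (R 1))).ae_notMem volume
    have a3 : ∀ᵐ y : E3, y ≠ x := (Set.countable_singleton x).ae_notMem volume
    have a4 : ∀ᵐ y : E3, y ≠ sg x := (Set.countable_singleton (sg x)).ae_notMem volume
    filter_upwards [a1, a2, a3, a4, offT] with y y1 y2 y3 y4 y5
    by_cases hy : y ∈ ball (R 1) r'
    · rw [indicator_of_mem hy]
      rw [mem_ball, dist_eq_norm] at hy
      have hw1 := hr y y1 (hy.trans_le hr'1)
      have hy0 : (R 1) 0 / 2 ≤ y 0 := by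
        have := abs_coord (y - R 1) 0
        have e : (y - R 1) 0 = y 0 - (R 1) 0 := rfl
        rw [e] at this
        have := (abs_le.mp this).1
        linarith
      have hy0' : 0 < y 0 := by linarith
      have b1 : ‖x - y‖ ≤ M := by
        have : x - y = (x - R 0) + (R 0 - R 1) - (y - R 1) := by abel
        rw [this]
        refine (norm_sub_le _ _).trans ?_
        have := norm_add_le (x - R 0) (R 0 - R 1)
        rw [hxn] at this
        linarith
      have b2 : ‖x - sg y‖ ≤ M := by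
        rw [← sg_dist']
        have : sg x - y = (sg x - R 0) + (R 0 - R 1) - (y - R 1) := by abel
        rw [this]
        refine (norm_sub_le _ _).trans ?_
        have := norm_add_le (sg x - R 0) (R 0 - R 1)
        rw [hsn] at this
        linarith
      have k := ker_ge (x := x) (y := y) (by rw [hx0]; exact t0) hy0' (Ne.symm y3) hM0 b1 b2
      rw [hx0] at k
      have k2 : (R 1) 0 / M ^ 3 * t ≤ 2 * (t * y 0) / M ^ 3 := by
        rw [div_mul_eq_mul_div]
        refine div_le_div_of_nonneg_right ?_ (by positivity)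
        nlinarith
      have k3 : 0 ≤ 1 / ‖x - y‖ - 1 / ‖x - sg y‖ := by
        have := ker_nonneg (x := x) (y := y) (by rw [hx0]; exact t0) hy0' (Ne.symm y3)
        linarith
      calc (R 1) 0 / M ^ 3 * t ≤ 1 * (1 / ‖x - y‖ - 1 / ‖x - sg y‖) := by linarith
        _ ≤ _ := mul_le_mul_of_nonneg_right hw1 k3
    · rw [indicator_of_notMem hy]
      rcases lt_or_gt_of_ne y5 with hy0 | hy0
      · -- lower half space
        have hs0 : 0 < (sg y) 0 := by rw [sg_zero]; linarith
        have e1 : w y = - w (sg y) := by rw [ho y]; ring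
        have hne : sg y ≠ R 1 := fun h => y2 (by rw [← h, sg_sg])
        have hne2 : x ≠ sg y := fun h => y4 (by rw [h, sg_sg])
        have k := ker_nonneg (x := x) (y := sg y) (by rw [hx0]; exact t0) hs0 hne2
        rw [sg_sg] at k
        have k2 := hw (sg y) hs0 hne
        rw [e1]
        nlinarith
      · have k := ker_nonneg (x := x) (y := y) (by rw [hx0]; exact t0) hy0 (Ne.symm y3)
        exact mul_nonneg (hw y hy0 y1) (by linarith)
  have h3 := integral_mono_ae iJ iI hae
  rw [← h2, integral_indicator measurableSet_ball, setIntegral_const, smul_eq_mul] at h3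
  linarith

theorem pos_int {f : E3 → ℝ} (hf : Integrable f) (f0 : ∀ x, 0 ≤ f x) {p : E3} {r : ℝ}
    (r0 : 0 < r) (h : ∀ y, y ≠ p → ‖y - p‖ < r → 1 ≤ f y) : 0 < ∫ x, f x := by
  have hvol : 0 < volume.real (ball p r) :=
    ENNReal.toReal_pos (measure_ball_pos volume _ r0).ne' measure_ball_lt_top.ne
  have hb : (ball p r).indicator (fun _ => (1:ℝ)) ≤ᵐ[volume] f := by
    have a1 : ∀ᵐ y : E3, y ≠ p := (Set.countable_singleton p).ae_notMem volume
    filter_upwards [a1] with y hy
    by_cases hyb : y ∈ ball p r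
    · rw [indicator_of_mem hyb]
      exact h y hy (by rwa [mem_ball, dist_eq_norm] at hyb)
    · rw [indicator_of_notMem hyb]
      exact f0 y
  have iJ : Integrable ((ball p r).indicator fun _ => (1:ℝ)) := by
    rw [integrable_indicator_iff measurableSet_ball]
    exact integrableOn_const measure_ball_lt_top.ne
  have h3 := integral_mono_ae iJ hf hb
  rw [integral_indicator measurableSet_ball, setIntegral_const, smul_eq_mul, mul_one] at h3
  linarith

/-- **the failure of monotonicity** -/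
theorem key (hz : ∀ j, 0 < z j) (h0 : (R 0) 0 = 0) (h1 : 0 < (R 1) 0) {Φ Φ' : ℝ}
    (hΦ : 0 ≤ Φ) {ρ ρ' : E3 → ℝ} (h : ELs z R Φ ρ) (h' : ELs z R Φ' ρ')
    (hs : ∀ x, 1 ≤ Φ' - Φ - pot ρ x + pot ρ' x) :
    (∃ x, 0 < x 0 ∧ x ≠ R 1 ∧ ρ x - ρ (sg x) < ρ' x - ρ' (sg x)) ∧ ∫ x, ρ' x < ∫ x, ρ x ∧
      0 < ∫ x, ρ' x := by
  obtain ⟨B, hB0, hB⟩ := pot_bdd h.nice
  obtain ⟨B', hB'0, hB'⟩ := pot_bdd h'.nice
  obtain ⟨r, r0, hr⟩ := near1 hz h0 h1 hΦ h h' hs
  have hΦ' : Φ ≤ Φ' := by
    by_contra hcon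
    push Not at hcon
    -- at infinity the potentials vanish
    obtain ⟨M1, hM1⟩ := pot_decay h.nice (1/4) (by norm_num)
    obtain ⟨M2, hM2⟩ := pot_decay h'.nice (1/4) (by norm_num)
    set x : E3 := (max (max M1 M2) 0) • e0
    have hx : ‖x‖ = max (max M1 M2) 0 := by
      rw [norm_smul, e0_norm, mul_one, Real.norm_of_nonneg (le_max_right _ _)]
    have k1 := hM1 x (by rw [hx]; exact (le_max_left _ _).trans (le_max_left _ _))
    have k2 := hM2 x (by rw [hx]; exact (le_max_right _ _).trans (le_max_left _ _))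
    have k3 := hs x
    have := (abs_le.mp k1).1
    have := (abs_le.mp k2).2
    linarith
  have hle : ∀ x, ρ' x ≤ ρ x := (EL_mono h' h hΦ').2
  have nσ := nice_sub' h.nice h'.nice
  refine ⟨?_, ?_, ?_⟩
  · by_contra hcon
    push Not at hcon
    -- the odd part
    set w : E3 → ℝ := fun y => (ρ y - ρ' y) - (ρ (sg y) - ρ' (sg y)) with hwdef
    have nw : Nice w := nice_sub' nσ (nice_sg nσ)
    have ho : ∀ y, w (sg y) = - w y := fun y => by
      simp only [hwdef, sg_sg]
      ring
    have hw : ∀ y, 0 < y 0 → y ≠ R 1 → 0 ≤ w y := fun y hy hne => by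
      have := hcon y hy hne
      simp only [hwdef]
      linarith
    obtain ⟨c, c0, hc⟩ := field_ge h1 nw ho hw r0 hr h0
    have hpw : ∀ x, pot w x = (pot ρ x - pot ρ' x) - (pot ρ (sg x) - pot ρ' (sg x)) := by
      intro x
      have e1 : pot w x = pot (fun y => ρ y - ρ' y) x - pot (fun y => ρ (sg y) - ρ' (sg y)) x :=
        pot_sub nσ (nice_sg nσ) x
      rw [e1, pot_sub h.nice h'.nice, pot_sg (fun y => ρ y - ρ' y) x, pot_sub h.nice h'.nice]
    -- the functions of `t`
    set X : ℝ → E3 := fun t => R 0 + t • e0 with hX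
    have hX0 : ∀ t, (X t) 0 = t := fun t => by simp [hX, h0, e0]
    have hsX : ∀ t, sg (X t) = X (-t) := fun t => by
      ext i
      rw [sg_apply]
      fin_cases i
      · simp [hX, e0, h0]
      · simp [hX, e0]
      · simp [hX, e0]
    have hXn : ∀ t, ‖X t - R 0‖ = |t| := fun t => by
      simp only [hX]
      rw [add_sub_cancel_left, norm_smul, e0_norm, mul_one, Real.norm_eq_abs]
    have hXc : Continuous X := by
      simp only [hX]
      fun_prop
    have hX00 : X 0 = R 0 := by simp [hX]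
    have hne01 : R 0 ≠ R 1 := fun hh => by
      rw [hh] at h0
      linarith
    set g : ℝ → ℝ := fun t => z 1 / ‖X t - R 1‖ with hg
    have hgc : ContinuousAt g 0 := by
      simp only [hg]
      refine continuousAt_const.div ?_ ?_
      · exact (hXc.sub continuous_const).norm.continuousAt
      · rw [hX00]
        exact norm_ne_zero_iff.mpr (sub_ne_zero.mpr hne01)
    set f : ℝ → ℝ := fun t => (g t - g (-t)) - (pot ρ (X t) - pot ρ (X (-t))) with hf
    have hf0 : Tendsto f (𝓝 0) (𝓝 0) := by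
      have hgn : ContinuousAt (fun t : ℝ => g (-t)) 0 := by
        refine ContinuousAt.comp (g := g) (f := fun t : ℝ => -t) ?_ continuous_neg.continuousAt
        rw [neg_zero]
        exact hgc
      have hp : Continuous fun t => pot ρ (X t) := (pot_cont h.nice).comp hXc
      have hpn : Continuous fun t : ℝ => pot ρ (X (-t)) :=
        (pot_cont h.nice).comp (hXc.comp continuous_neg)
      have := (hgc.sub hgn).sub (hp.continuousAt.sub hpn.continuousAt)
      have h2 : Tendsto f (𝓝 0) (𝓝 (f 0)) := this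
      have h3 : f 0 = 0 := by simp [hf]
      rwa [h3] at h2
    -- bounded quantities
    have hgb : ∀ᶠ t in 𝓝 (0:ℝ), |g t - g (-t)| ≤ 1 := by
      have hgn : ContinuousAt (fun t : ℝ => g (-t)) 0 := by
        refine ContinuousAt.comp (g := g) (f := fun t : ℝ => -t) ?_ continuous_neg.continuousAt
        rw [neg_zero]
        exact hgc
      have h2 : Tendsto (fun t => |g t - g (-t)|) (𝓝 0) (𝓝 |g 0 - g (-0)|) :=
        (hgc.sub hgn).abs
      rw [neg_zero, sub_self, abs_zero] at h2
      exact (h2.eventually (gt_mem_nhds one_pos)).mono fun t ht => ht.le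
    set C := 1 + B + B' + (Φ' - Φ) with hC
    have hC0 : 0 < C := by
      have : 0 ≤ Φ' - Φ := by linarith
      positivity
    have hfe : ∀ᶠ t in 𝓝 (0:ℝ), |f t| < c * z 0 / (2 * C) := by
      have h2 : Tendsto (fun t => |f t|) (𝓝 0) (𝓝 |0|) := hf0.abs
      rw [abs_zero] at h2
      refine h2.eventually (gt_mem_nhds ?_)
      have := hz 0
      positivity
    have hbig : ∀ᶠ t : ℝ in 𝓝[>] 0, B + B' + Φ' + 1 ≤ z 0 / (2 * t) := by
      have h2 := (tendsto_inv_nhdsGT_zero (𝕜 := ℝ)).const_mul_atTop (show 0 < z 0 / 2 by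
        have := hz 0
        positivity)
      filter_upwards [h2.eventually_ge_atTop (B + B' + Φ' + 1)] with t ht
      refine ht.trans (le_of_eq ?_)
      rw [div_mul_eq_div_div, div_eq_mul_inv (z 0 / 2)]
    have hXne : ∀ᶠ t in 𝓝 (0:ℝ), X t ≠ R 1 :=
      hXc.continuousAt.eventually_ne (by rw [hX00]; exact hne01)
    have hev : ∀ᶠ t in 𝓝[>] (0:ℝ),
      (((|g t - g (-t)| ≤ 1 ∧ |f t| < c * z 0 / (2 * C)) ∧ X t ≠ R 1) ∧
        B + B' + Φ' + 1 ≤ z 0 / (2 * t)) ∧ t ∈ Ioc (0:ℝ) 1 :=
      ((((hgb.and hfe).and hXne).filter_mono nhdsWithin_le_nhds).and hbig).and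
        (Ioc_mem_nhdsGT (show (0:ℝ) < 1 by norm_num))
    obtain ⟨t, ⟨⟨⟨hgb', hfe'⟩, hne⟩, hbig'⟩, t0, t1⟩ := hev.exists
    have hz0 := hz 0
    have hV1 : VV z R (X t) = z 0 / t + g t := by
      rw [VV2, hXn, abs_of_pos t0]
    have hV2 : VV z R (X (-t)) = z 0 / t + g (-t) := by
      rw [VV2, hXn, abs_neg, abs_of_pos t0]
    have hg1 : 0 ≤ g t := div_nonneg (hz 1).le (norm_nonneg _)
    have hg2 : 0 ≤ g (-t) := div_nonneg (hz 1).le (norm_nonneg _)
    have hzt : z 0 / t = z 0 / (2 * t) + z 0 / (2 * t) := by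
      field_simp
      ring
    have hG := hc t t0 t1
    rw [hpw] at hG
    have hcX := hcon (X t) (by rw [hX0]; exact t0) hne
    rw [hsX] at hcX hG
    have B1 := abs_le.mp (hB (X t))
    have B2 := abs_le.mp (hB (X (-t)))
    have B3 := abs_le.mp (hB' (X t))
    have B4 := abs_le.mp (hB' (X (-t)))
    -- the four values
    set a := VV z R (X t) - pot ρ (X t) - Φ with ha
    set b := VV z R (X (-t)) - pot ρ (X (-t)) - Φ with hb
    set a' := VV z R (X t) - pot ρ' (X t) - Φ' with ha'
    set b' := VV z R (X (-t)) - pot ρ' (X (-t)) - Φ' with hb'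
    rw [h.eq (X t), h.eq (X (-t)), h'.eq (X t), h'.eq (X (-t))] at hcX
    have T1 := be_tan b' a'
    have T2 := be_tan a b
    have hab : a - b = f t := by
      simp only [hf, ha, hb, hV1, hV2]
      ring
    have hab' : f t + c * t ≤ a' - b' := by
      rw [← hab]
      simp only [ha, hb, ha', hb']
      have e : X 0 = R 0 := hX00
      have hGG : c * t ≤ pot ρ (X t) - pot ρ' (X t) - (pot ρ (X (-t)) - pot ρ' (X (-t))) := hG
      linarith
    have ha0 : z 0 / (2 * t) ≤ a := by
      simp only [ha, hV1, hzt]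
      linarith [B1.2]
    have hb0 : z 0 / (2 * t) ≤ b' := by
      simp only [hb', hV2, hzt]
      linarith [B4.2]
    have hzt0 : 0 < z 0 / (2 * t) := by positivity
    have ha1 : 0 < a := hzt0.trans_le ha0
    have hb1 : 0 < b' := hzt0.trans_le hb0
    rw [max_eq_left hb1.le] at T1
    rw [max_eq_left ha1.le] at T2
    have hp0 := Real.sqrt_nonneg a
    have hq0 := Real.sqrt_nonneg b'
    have hp2 := Real.sq_sqrt ha1.le
    have hq2 := Real.sq_sqrt hb1.le
    set p := √a
    set q := √b'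
    have hq1 : 0 < q := Real.sqrt_pos.mpr hb1
    have hp1 : 0 < p := Real.sqrt_pos.mpr ha1
    -- the inequality of the square roots
    have I1 : q * (a' - b') ≤ p * (a - b) := by nlinarith
    have I2 : q * (c * t) ≤ (p - q) * f t := by
      have := mul_le_mul_of_nonneg_left hab' hq0
      rw [hab] at I1
      nlinarith
    have I3 : |a - b'| ≤ C := by
      have e : a - b' = (g t - g (-t)) - pot ρ (X t) + pot ρ' (X (-t)) + (Φ' - Φ) := by
        simp only [ha, hb', hV1, hV2]
        ring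
      rw [e, abs_le]
      have := abs_le.mp hgb'
      constructor <;> simp only [hC] <;> linarith [B1.1, B1.2, B4.1, B4.2]
    have I4 : |p - q| * (p + q) = |a - b'| := by
      rw [← hp2, ← hq2, show p ^ 2 - q ^ 2 = (p - q) * (p + q) by ring, abs_mul,
        abs_of_pos (show 0 < p + q by linarith)]
    have I5 : (p - q) * f t ≤ |p - q| * |f t| := by
      rw [← abs_mul]
      exact le_abs_self _
    have I6 : q * (c * t) * (p + q) ≤ C * |f t| := by
      have h1 : q * (c * t) * (p + q) ≤ |p - q| * |f t| * (p + q) :=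
        mul_le_mul_of_nonneg_right (I2.trans I5) (by linarith)
      have h2 : |p - q| * |f t| * (p + q) = |a - b'| * |f t| := by rw [← I4]; ring
      rw [h2] at h1
      exact h1.trans (mul_le_mul_of_nonneg_right I3 (abs_nonneg _))
    have I7 : z 0 / (2 * t) ≤ p * q := by
      have h1 : √(z 0 / (2 * t)) ≤ p := Real.sqrt_le_sqrt ha0
      have h2 : √(z 0 / (2 * t)) ≤ q := Real.sqrt_le_sqrt hb0
      calc z 0 / (2 * t) = √(z 0 / (2 * t)) * √(z 0 / (2 * t)) :=
            (Real.mul_self_sqrt hzt0.le).symm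
        _ ≤ p * q := mul_le_mul h1 h2 (Real.sqrt_nonneg _) hp0
    have I8 : c * z 0 / 2 ≤ C * |f t| := by
      have h1 : c * z 0 / 2 = (c * t) * (z 0 / (2 * t)) := by
        field_simp
      have h2 : (c * t) * (z 0 / (2 * t)) ≤ (c * t) * (p * q) :=
        mul_le_mul_of_nonneg_left I7 (by positivity)
      have h3 : (c * t) * (p * q) ≤ q * (c * t) * (p + q) := by
        have : 0 ≤ c * t * (q * q) := by positivity
        nlinarith
      linarith
    have I9 : C * |f t| < c * z 0 / 2 := by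
      have := mul_lt_mul_of_pos_left hfe' hC0
      refine this.trans_le (le_of_eq ?_)
      field_simp
    linarith
  · have hint := pos_int (f := fun y => ρ y - ρ' y) (nσ.2.1) (fun y => by linarith [hle y]) r0
      (fun y hy hyr => by
        have := hr y hy hyr
        have := hle (sg y)
        linarith)
    rw [integral_sub h.nice.2.1 h'.nice.2.1] at hint
    linarith
  · have ht := (tend_inv (hz 1) (R 1)).eventually_ge_atTop (B' + Φ' + 1)
    rw [eventually_nhdsWithin_iff, Metric.eventually_nhds_iff] at ht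
    obtain ⟨r2, r20, hr2⟩ := ht
    refine pos_int (p := R 1) h'.nice.2.1 h'.nonneg r20 (fun y hy hyr => ?_)
    have k := hr2 (by rwa [dist_eq_norm]) hy
    have hV : z 1 / ‖y - R 1‖ ≤ VV z R y := by
      rw [VV2]
      have : 0 ≤ z 0 / ‖y - R 0‖ := div_nonneg (hz 0).le (norm_nonneg _)
      linarith
    have k2 := (abs_le.mp (hB' y)).2
    rw [h'.eq y]
    have k3 : be 1 ≤ be (VV z R y - pot ρ' y - Φ') := be_mono (by linarith)
    have k4 : be 1 = 1 := by
      unfold be
      rw [max_eq_left zero_le_one, Real.one_rpow]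
    linarith

/-- existence of two solutions for which the monotonicity fails -/
theorem exists_pair (hz : ∀ j, 0 < z j) (h0 : (R 0) 0 = 0) (h1 : 0 < (R 1) 0) :
    ∃ (Φ Φ' : ℝ) (ρ ρ' : E3 → ℝ), 0 < Φ ∧ 0 < Φ' ∧ ELs z R Φ ρ ∧ ELs z R Φ' ρ' ∧
      (∃ x, 0 < x 0 ∧ x ≠ R 1 ∧ ρ x - ρ (sg x) < ρ' x - ρ' (sg x)) ∧ ∫ x, ρ' x < ∫ x, ρ x ∧
      0 < ∫ x, ρ' x ∧ ∫ x, ρ x < ∑ j, z j := by
  have hZ : 0 < ∑ j, z j := Finset.sum_pos (fun j _ => hz j) ⟨0, Finset.mem_univ _⟩
  obtain ⟨Φ, ρ, hΦ, h, hm⟩ := exists_small (R := R) (fun j => (hz j).le) hZ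
  obtain ⟨B, hB0, hB⟩ := pot_bdd h.nice
  obtain ⟨ρ', h', hle⟩ := exists_rho h (Φ := Φ + B + 1) (by linarith)
  have hs : ∀ x, 1 ≤ (Φ + B + 1) - Φ - pot ρ x + pot ρ' x := by
    intro x
    have k1 := (abs_le.mp (hB x)).2
    have k2 := pot_nonneg h'.nonneg x
    linarith
  obtain ⟨k1, k2, k3⟩ := key hz h0 h1 hΦ.le h h' hs
  exact ⟨Φ, Φ + B + 1, ρ, ρ', hΦ, by linarith, h, h', k1, k2, k3, hm⟩

end Pool.Agent.X96.TD
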